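import Pool.Agent.KS6_65.QTR.Main

/-!
# The `q`-congruence with factor `[8k-1]`: truncated sums

The definitions `q`, `qint`, `qp`, `A`, `B`, `S`, `br`, `Zero` are those of the library module
`Pool/Graph/R_pool_sql_team_seeded_64922ed1/Results/MP_97831a_nt/AllOddN.lean`: `S N` is the sum over
`0 ≤ k ≤ N - 1` of `[8k-1] A_k(q)^6 B_k(q) q^{8k}`, `br n = [n]`, and `Zero P R` is `R ≡ 0 (mod P)`.
-/

set_option autoImplicit false

namespace Pool.Agent.Results.MP_97831a_nt.TruncatedSums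

open Finset Polynomial Pool.Agent.X14 QL QBlock
open Pool.Agent.KS6_65.QTR
open Pool.Agent.Results.MP_97831a_nt.AllOddN (S br Zero)

/-- Let `n > 1` be odd and let `S N` be the sum over `0 ≤ k ≤ N - 1`.

(i) Let `n ≡ 1 (mod 4)` and `t = (3n+1)/4`. The sums up to `k = n - 1` and up to `k = t` are
`≡ 0 (mod [n] Φ_n(q)^2)`, and all sums up to `k = N - 1` with `t < N ≤ n` are `≡ 0 (mod Φ_n(q)^3)`.

(ii) Let `n ≡ 3 (mod 4)` and `t = (n+1)/4`. The sums up to `k = n - 1` and up to `k = t` are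
`≡ 0 (mod [n])`.

(iii) In both cases, for every `J ≥ 0` the sums up to `k = n J - 1` and up to `k = n J + t` are
`≡ 0 (mod [n])`, and all sums up to `k = N - 1` with `n J + t < N ≤ n (J + 1)` are
`≡ 0 (mod Φ_n(q))`. -/
theorem result (n : ℕ) (hn : Odd n) (hn1 : 1 < n) :
    (n % 4 = 1 →
      Zero (br n * cyclotomic n ℚ ^ 2) (S n) ∧
      Zero (br n * cyclotomic n ℚ ^ 2) (S ((3 * n + 1) / 4 + 1)) ∧
      ∀ N, (3 * n + 1) / 4 < N → N ≤ n → Zero (cyclotomic n ℚ ^ 3) (S N)) ∧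
    (n % 4 = 3 → Zero (br n) (S n) ∧ Zero (br n) (S ((n + 1) / 4 + 1))) ∧
    (∀ t, t = (if n % 4 = 1 then (3 * n + 1) / 4 else (n + 1) / 4) → ∀ J,
      Zero (br n) (S (n * J)) ∧ Zero (br n) (S (n * J + (t + 1))) ∧
      ∀ N, n * J + t < N → N ≤ n * (J + 1) → Zero (cyclotomic n ℚ) (S N)) := by
  have hn2 : n % 2 = 1 := Nat.odd_iff.1 hn
  have hn0 : 0 < n := by omega
  have key : ∀ M t : ℕ, M * n + 1 = 4 * t → M < 4 → ∀ J,
      Zero (br n) (S (n * J)) ∧ Zero (br n) (S (n * J + (t + 1))) ∧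
      ∀ N, n * J + t < N → N ≤ n * (J + 1) → Zero (cyclotomic n ℚ) (S N) := by
    intro M t h hM J
    refine ⟨zero_of hn0 (all_mul hn2 J), zero_of hn0 (all_trunc hn1 h hM J), ?_⟩
    intro N h1 h2
    obtain ⟨l, rfl⟩ : ∃ l, N = n * J + l := ⟨N - n * J, by omega⟩
    have h3 : l ≤ n := by
      rw [Nat.mul_succ] at h2
      omega
    have h4 := (S_QO h hM hn1 J h3 (by omega)).num_denom
    rw [pow_one] at h4
    exact ⟨h4.2, h4.1⟩
  refine ⟨fun h => ?_, fun h => ?_, ?_⟩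
  · have h0 : 3 * n + 1 = 4 * ((3 * n + 1) / 4) := by omega
    have ht : (3 * n + 1) / 4 < n := t_lt5 h0 (by norm_num) hn1
    refine ⟨?_, ?_, fun N h1 h2 => ?_⟩
    · refine zero_of' hn1 ?_ (S_first_QO h0 hn1 le_rfl ht)
      have := all_mul hn2 1
      rwa [mul_one] at this
    · refine zero_of' hn1 ?_ (S_first_QO h0 hn1 (by omega) (by omega))
      have := all_trunc hn1 h0 (by norm_num) 0
      rwa [mul_zero, zero_add] at this
    · have h4 := (S_first_QO h0 hn1 h2 h1).num_denom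
      exact ⟨h4.2, h4.1⟩
  · have h0 : 1 * n + 1 = 4 * ((n + 1) / 4) := by omega
    obtain ⟨h1, -, -⟩ := key 1 _ h0 (by norm_num) 1
    obtain ⟨-, h2, -⟩ := key 1 _ h0 (by norm_num) 0
    rw [mul_one] at h1
    rw [mul_zero, zero_add] at h2
    exact ⟨h1, h2⟩
  · intro t ht J
    by_cases h : n % 4 = 1
    · rw [if_pos h] at ht
      exact key 3 t (by omega) (by norm_num) J
    · rw [if_neg h] at ht
      exact key 1 t (by omega) (by norm_num) J

end Pool.Agent.Results.MP_97831a_nt.TruncatedSums
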